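import Pool.Agent.Q28.PV.Defs

/-!
# Abel-Jacobi maps on algebraically trivial cycles: basic calculations
-/

open CategoryTheory AlgebraicGeometry

universe u v w w'

namespace Pool.Agent.Q28.PV

open Pool.Agent.H914 Pool.Agent.H914.VarClass Pool.Agent.H914.VarClass.Obj Pool.Agent.W492.BB
  Pool.Agent.W550.Corr Pool.Agent.TH133

variable {k : Type u} [Field k] {𝒱 : VarClass k} {C : TheoryData.{u, v, 0} 𝒱 ℚ} [IsChowProj C]
  {K : Type w} [Field K] {H : WeilTheoryData.{u, v, w} C K} [IsWeilProj H]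

section chow

lemma cograph_mem {X Y : 𝒱.Obj} (f : X ⟶ Y) : C.cograph f ∈ C.gr (Y.prod X) Y.dim := by
  have h := C.push_mem (Obj.lift f (𝟙 X)) (C.one_mem X)
  have e1 : (0 : ℤ) + 1 * (((Y.prod X).dim : ℤ) - (X.dim : ℤ)) = Y.dim := by
    rw [dim_prod]; push_cast; ring
  rwa [e1] at h

lemma mulCorr_mem {X : 𝒱.Obj} {c : C.A X} {i : ℤ} (hc : c ∈ C.gr X i) :
    C.mulCorr c ∈ C.gr (X.prod X) ((X.dim : ℤ) + i) := by
  have h := C.push_mem (Obj.lift (𝟙 X) (𝟙 X)) hc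
  have e1 : i + 1 * (((X.prod X).dim : ℤ) - (X.dim : ℤ)) = (X.dim : ℤ) + i := by
    rw [dim_prod]; push_cast; ring
  rwa [e1] at h

/-- Composition of correspondences from a curve. -/
lemma comp_curve {T X Y : 𝒱.Obj} {Γ : C.A (T.prod X)} {Δ : C.A (X.prod Y)} {j i : ℤ}
    (hΓ : Γ ∈ C.gr (T.prod X) j) (hΔ : Δ ∈ C.gr (X.prod Y) ((X.dim : ℤ) + i)) :
    C.comp Γ Δ ∈ C.gr (T.prod Y) (j + i) := by
  have h1 : Γ ∈ C.gr (T.prod X) ((T.dim : ℤ) + (j - T.dim)) := by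
    have e : (T.dim : ℤ) + (j - T.dim) = j := by ring
    rwa [e]
  have h := comp_mem C h1 hΔ
  have e : (T.dim : ℤ) + (j - T.dim + i) = j + i := by ring
  rwa [e] at h

lemma comp_deg {X Y Z : 𝒱.Obj} {Γ : C.A (X.prod Y)} {Δ : C.A (Y.prod Z)} {j i l : ℕ}
    (hΓ : C.Deg ((X.dim : ℤ) + i - j) Γ) (hΔ : C.Deg ((Y.dim : ℤ) + l - i) Δ) :
    C.Deg ((X.dim : ℤ) + l - j) (C.comp Γ Δ) := by
  have h1 : Γ ∈ C.gr (X.prod Y) ((X.dim : ℤ) + ((i : ℤ) - j)) := by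
    have e : (X.dim : ℤ) + ((i : ℤ) - j) = (X.dim : ℤ) + i - j := by ring
    rw [e]; exact hΓ
  have h2 : Δ ∈ C.gr (Y.prod Z) ((Y.dim : ℤ) + ((l : ℤ) - i)) := by
    have e : (Y.dim : ℤ) + ((l : ℤ) - i) = (Y.dim : ℤ) + l - i := by ring
    rw [e]; exact hΔ
  have h := comp_mem C h1 h2
  have e : (X.dim : ℤ) + ((i : ℤ) - j + ((l : ℤ) - i)) = (X.dim : ℤ) + l - j := by ring
  rw [e] at h; exact h

omit [IsChowProj C] in
lemma curve_deg {T X : 𝒱.Obj} (hT : T.dim = 1) {j : ℕ} {Γ : C.A (T.prod X)} (hΓ : C.Deg j Γ) :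
    C.Deg ((T.dim : ℤ) + j - (1 : ℕ)) Γ := by
  have e : (T.dim : ℤ) + j - (1 : ℕ) = j := by rw [hT]; push_cast; ring
  rw [e]; exact hΓ

omit [IsChowProj C] in
lemma curve_deg' {T X : 𝒱.Obj} (hT : T.dim = 1) {j : ℕ} {Γ : C.A (T.prod X)}
    (hΓ : C.Deg ((T.dim : ℤ) + j - (1 : ℕ)) Γ) : C.Deg j Γ := by
  have e : (T.dim : ℤ) + j - (1 : ℕ) = j := by rw [hT]; push_cast; ring
  rw [e] at hΓ; exact hΓ

/-- External products as the action of a correspondence. -/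
lemma ext_eq_act {X T : 𝒱.Obj} (x : C.A X) (a : C.A T) :
    C.act (C.comp (C.cograph (snd X T)) (C.mulCorr (C.pull (fst X T) x))) a = C.ext x a := by
  rw [C.act_comp, C.act_cograph, C.act_mulCorr]
  rfl

lemma mul_act {X T : 𝒱.Obj} (Γ : C.A (T.prod X)) (x : C.A X) (a : C.A T) :
    x * C.act Γ a = C.push (snd T X) (Γ * C.ext a x) := by
  rw [C.act_apply, ← C.proj_left, TheoryData.ext, ch_comm C (C.pull (snd T X) x), mul_assoc]

lemma exists_point (T : 𝒱.Obj) : ∃ o : C.A T, C.Deg T.dim o ∧ HasDegree C o 1 := by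
  obtain ⟨o, ho, h1, h2⟩ := exists_deg_one C T
  exact ⟨o, ho, fun Y => ⟨by rw [h2, one_smul], by rw [h1, one_smul]⟩⟩

end chow

section hom

variable {X Y Z T : 𝒱.Obj} {j i : ℕ}

omit [IsChowProj C] [IsWeilProj H] in
lemma HomTriv.add {z z' : C.A X} (h : HomTriv H X j z) (h' : HomTriv H X j z') :
    HomTriv H X j (z + z') :=
  ⟨add_mem h.1 h'.1, by rw [map_add, h.2, h'.2, add_zero]⟩

omit [IsChowProj C] [IsWeilProj H] in
lemma HomTriv.zero : HomTriv H X j 0 := ⟨zero_mem _, map_zero _⟩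

omit [IsChowProj C] [IsWeilProj H] in
lemma HomTriv.smul (q : ℚ) {z : C.A X} (h : HomTriv H X j z) : HomTriv H X j (q • z) :=
  ⟨Submodule.smul_mem _ q h.1, by rw [Algebra.smul_def, map_mul, h.2, mul_zero]⟩

omit [IsChowProj C] [IsWeilProj H] in
lemma HomTriv.sub {z z' : C.A X} (h : HomTriv H X j z) (h' : HomTriv H X j z') :
    HomTriv H X j (z - z') := by
  have := h.add (h'.smul (-1))
  rwa [neg_one_smul, ← sub_eq_add_neg] at this

omit [IsChowProj C] [IsWeilProj H] in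
lemma HomTriv.sum {α : Type*} (s : Finset α) {z : α → C.A X} (h : ∀ l ∈ s, HomTriv H X j (z l)) :
    HomTriv H X j (∑ l ∈ s, z l) := by
  classical
  induction s using Finset.induction_on with
  | empty => rw [Finset.sum_empty]; exact .zero
  | insert a s ha ih =>
    rw [Finset.sum_insert ha]
    exact (h a (Finset.mem_insert_self _ _)).add
      (ih fun l hl => h l (Finset.mem_insert_of_mem hl))

lemma HomTriv.act {Γ : C.A (X.prod Y)} (hΓ : C.Deg ((X.dim : ℤ) + i - j) Γ) {z : C.A X}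
    (h : HomTriv H X j z) : HomTriv H Y i (C.act Γ z) := by
  refine ⟨?_, ?_⟩
  · have h1 : Γ ∈ C.gr (X.prod Y) ((X.dim : ℤ) + ((i : ℤ) - j)) := by
      have e : (X.dim : ℤ) + ((i : ℤ) - j) = (X.dim : ℤ) + i - j := by ring
      rw [e]; exact hΓ
    have h2 := act_mem' C h1 h.1
    have e2 : (j : ℤ) + ((i : ℤ) - j) = i := by ring
    rw [e2] at h2
    exact h2
  · rw [cl_act, h.2]
    exact map_zero (H.toTheoryData.actL (H.cl Γ))

lemma cl_comp_zero {Γ : C.A (X.prod Y)} (h : H.cl Γ = 0) (Δ : C.A (Y.prod Z)) :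
    H.cl (C.comp Γ Δ) = 0 := by
  rw [cl_comp, h]
  exact zero_comp H.toTheoryData _

lemma cl_comp_zero' (Γ : C.A (X.prod Y)) {Δ : C.A (Y.prod Z)} (h : H.cl Δ = 0) :
    H.cl (C.comp Γ Δ) = 0 := by
  rw [cl_comp, h]
  exact comp_zero H.toTheoryData _

omit [IsChowProj C] in
lemma cl_mulCorr_zero {c : C.A X} (h : H.cl c = 0) : H.cl (C.mulCorr c) = 0 := by
  have : H.cl (C.mulCorr c) = H.push (Obj.lift (𝟙 X) (𝟙 X)) (H.cl c) := H.cl_push _ _
  rw [this, h, map_zero]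

omit [IsChowProj C] [IsWeilProj H] in
lemma kills_of_cl [IsWeilProj H] {Γ : C.A (X.prod Y)} (h : H.cl Γ = 0) (m : ℤ) :
    Kills H Γ m := by
  intro a _
  rw [h]
  exact H.toTheoryData.act_zero a

lemma AlgTriv.homTriv {z : C.A X} (hz : AlgTriv H X j z) : HomTriv H X j z := by
  obtain ⟨T, Γ, a, hT, hΓ, ha, rfl⟩ := hz
  exact ha.act (curve_deg hT hΓ)

lemma AlgTriv.act {Γ : C.A (X.prod Y)} (hΓ : C.Deg ((X.dim : ℤ) + i - j) Γ) {z : C.A X}
    (hz : AlgTriv H X j z) : AlgTriv H Y i (C.act Γ z) := by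
  obtain ⟨T, Δ, a, hT, hΔ, ha, rfl⟩ := hz
  exact ⟨T, C.comp Δ Γ, a, hT, curve_deg' hT (comp_deg (curve_deg hT hΔ) hΓ), ha,
    (C.act_comp Δ Γ a).symm⟩

lemma AlgTriv.smul (q : ℚ) {z : C.A X} (hz : AlgTriv H X j z) : AlgTriv H X j (q • z) := by
  obtain ⟨T, Δ, a, hT, hΔ, ha, rfl⟩ := hz
  exact ⟨T, Δ, q • a, hT, hΔ, ha.smul q, (act_map_smul C Δ q a).symm⟩

end hom

section aj

variable {F : Type} [Field F] [Algebra ℚ F] (D : AJTheory.{u, v, w, w'} H F) {X : 𝒱.Obj} {j : ℕ}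

omit [IsChowProj C] [IsWeilProj H] in
lemma aj_zero : D.aj X j 0 = 0 := by
  have h := D.aj_smul X j 0 0 .zero
  rw [zero_smul, map_zero, zero_smul] at h
  exact h

omit [IsChowProj C] [IsWeilProj H] in
lemma aj_sum {α : Type*} (s : Finset α) {z : α → C.A X} (h : ∀ l ∈ s, HomTriv H X j (z l)) :
    D.aj X j (∑ l ∈ s, z l) = ∑ l ∈ s, D.aj X j (z l) := by
  classical
  induction s using Finset.induction_on with
  | empty => rw [Finset.sum_empty, Finset.sum_empty, aj_zero]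
  | insert a s ha ih =>
    rw [Finset.sum_insert ha, Finset.sum_insert ha,
      D.aj_add _ _ _ _ (h a (Finset.mem_insert_self _ _))
        (HomTriv.sum s fun l hl => h l (Finset.mem_insert_of_mem hl)),
      ih fun l hl => h l (Finset.mem_insert_of_mem hl)]

omit [IsChowProj C] [IsWeilProj H] in
lemma aj_sub {z z' : C.A X} (h : HomTriv H X j z) (h' : HomTriv H X j z') :
    D.aj X j (z - z') = D.aj X j z - D.aj X j z' := by
  have h1 := D.aj_add X j z ((-1 : ℚ) • z') h (h'.smul _)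
  rw [D.aj_smul X j _ _ h', neg_one_smul, map_neg, map_one, neg_one_smul, ← sub_eq_add_neg,
    ← sub_eq_add_neg] at h1
  exact h1

end aj

end Pool.Agent.Q28.PV
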