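import Pool.Agent.Y148.BB.Defs

/-!
# Abel-Jacobi maps on algebraically trivial cycles: definitions
-/

open CategoryTheory AlgebraicGeometry

universe u v w w'

namespace Pool.Agent.Q28.PV

open Pool.Agent.H914 Pool.Agent.H914.VarClass Pool.Agent.H914.VarClass.Obj Pool.Agent.W492.BB
  Pool.Agent.W550.Corr Pool.Agent.TH133

variable {k : Type u} [Field k] {𝒱 : VarClass k} {C : TheoryData.{u, v, 0} 𝒱 ℚ}
  {K : Type w} [Field K] (H : WeilTheoryData.{u, v, w} C K)

/-- The class `z` lies in `CH^j(X)_hom`: it is of codimension `j` and homologically trivial. -/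
def HomTriv (X : 𝒱.Obj) (j : ℕ) (z : C.A X) : Prop := C.Deg j z ∧ H.cl z = 0

/-- The class `z` lies in `CH^j(X)_alg`, the group of algebraically trivial cycles modulo rational
equivalence, with rational coefficients: `z = Γ_* a`, where `T` is a curve, `a ∈ CH^1(T)` has degree
zero, and `Γ ∈ CH^j(T × X)`. -/
def AlgTriv (X : 𝒱.Obj) (j : ℕ) (z : C.A X) : Prop :=
  ∃ (T : 𝒱.Obj) (Γ : C.A (T.prod X)) (a : C.A T), T.dim = 1 ∧ C.Deg j Γ ∧
    HomTriv H T 1 a ∧ z = C.act Γ a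

/-- The class `z ∈ CH^j(X)` is of the form `Γ_* a` where `T` is a curve, `a ∈ CH^1(T)` has degree
zero, and the cycle `Γ ∈ CH^j(T × X)` is homologically trivial. -/
def DoublyTriv (X : 𝒱.Obj) (j : ℕ) (z : C.A X) : Prop :=
  ∃ (T : 𝒱.Obj) (Γ : C.A (T.prod X)) (a : C.A T), T.dim = 1 ∧ HomTriv H (T.prod X) j Γ ∧
    HomTriv H T 1 a ∧ z = C.act Γ a

/-- For all curves `T`, all homologically trivial cycles `Γ ∈ CH^j(T × X)` act as zero on the
divisor classes of degree zero of `T`. -/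
def KillsJacobians (X : 𝒱.Obj) (j : ℕ) : Prop :=
  ∀ (T : 𝒱.Obj) (Γ : C.A (T.prod X)) (a : C.A T), T.dim = 1 → HomTriv H (T.prod X) j Γ →
    HomTriv H T 1 a → C.act Γ a = 0

/-- The formal properties of Abel-Jacobi maps `aj X j : CH^j(X)_hom → V X j` with values in a
functorial system of vector spaces over the field `F` of characteristic zero (only the values of
`aj X j` on `CH^j(X)_hom` matter). The example for a prime number `p`, for varieties over a number
field `K`: `F = ℚ_p`, `V X j = H^1(K, H^(2j-1)(X, ℚ_p(j)))`, `sel X j = H^1_f(K, H^(2j-1)(X, ℚ_p(j)))`,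
and `aj` the `p`-adic Abel-Jacobi map. Another example is `F = ℚ`, `V X j` the intermediate Jacobian
of `X(ℂ)` modulo torsion and `aj` the map of Griffiths (`sel X j` everything). -/
structure AJTheory (F : Type) [Field F] [Algebra ℚ F] where
  /-- the target of the Abel-Jacobi map on `CH^j(X)_hom` -/
  V : 𝒱.Obj → ℕ → Type w'
  [acg : ∀ X j, AddCommGroup (V X j)]
  [mod : ∀ X j, Module F (V X j)]
  /-- the Selmer group -/
  sel : ∀ (X : 𝒱.Obj) (j : ℕ), Submodule F (V X j)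
  /-- the action of a correspondence in `CH^(dim X + i - j)(X × Y)` -/
  map : ∀ {X Y : 𝒱.Obj} (j i : ℕ), C.A (X.prod Y) → V X j →ₗ[F] V Y i
  /-- the Abel-Jacobi map -/
  aj : ∀ (X : 𝒱.Obj) (j : ℕ), C.A X → V X j
  map_comp : ∀ (X Y Z : 𝒱.Obj) (j i l : ℕ) (Γ : C.A (X.prod Y)) (Δ : C.A (Y.prod Z)),
    C.Deg ((X.dim : ℤ) + i - j) Γ → C.Deg ((Y.dim : ℤ) + l - i) Δ → ∀ c : V X j,
      map j l (C.comp Γ Δ) c = map i l Δ (map j i Γ c)
  map_id : ∀ (X : 𝒱.Obj) (j : ℕ) (c : V X j), map j j (dg C X) c = c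
  map_congr : ∀ (X Y : 𝒱.Obj) (j i : ℕ) (Γ Γ' : C.A (X.prod Y)),
    C.Deg ((X.dim : ℤ) + i - j) Γ → C.Deg ((X.dim : ℤ) + i - j) Γ' →
      Kills H (Γ - Γ') (2 * j - 1) → map j i Γ = map j i Γ'
  map_sel : ∀ (X Y : 𝒱.Obj) (j i : ℕ) (Γ : C.A (X.prod Y)),
    C.Deg ((X.dim : ℤ) + i - j) Γ → ∀ c ∈ sel X j, map j i Γ c ∈ sel Y i
  aj_add : ∀ (X : 𝒱.Obj) (j : ℕ) (z z' : C.A X), HomTriv H X j z → HomTriv H X j z' →
    aj X j (z + z') = aj X j z + aj X j z'
  aj_smul : ∀ (X : 𝒱.Obj) (j : ℕ) (q : ℚ) (z : C.A X), HomTriv H X j z →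
    aj X j (q • z) = algebraMap ℚ F q • aj X j z
  aj_act : ∀ (X Y : 𝒱.Obj) (j i : ℕ) (Γ : C.A (X.prod Y)) (z : C.A X),
    C.Deg ((X.dim : ℤ) + i - j) Γ → HomTriv H X j z →
      aj Y i (C.act Γ z) = map j i Γ (aj X j z)
  aj_curve : ∀ (T : 𝒱.Obj) (a : C.A T), T.dim = 1 → HomTriv H T 1 a → aj T 1 a ∈ sel T 1

attribute [instance] AJTheory.acg AJTheory.mod

variable {H}

/-- Three consequences of the theory of abelian varieties. (`add`) The algebraically trivial classes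
form a group. (`kernel`) The reducibility theorem of Poincare for the Jacobian of a curve `T`: the
kernel of the homomorphism `J(T) ⊗ ℚ → V X j` given by a cycle `Γ ∈ CH^j(T × X)` and the Abel-Jacobi
map of `X` is `B ⊗ ℚ` for an abelian subvariety `B` of `J(T)`, whose `H_1` is the kernel of the map
to `H^(2j-1)(X)`; so there is a cycle `e` on `T × T`, an idempotent with image `B`, such that `Γ ∘ e`
is homologically trivial and `e_* a = a` for `a` in the kernel. (`rational`) The image of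
`CH^j(X)_alg` under the Abel-Jacobi map, the rational points `A ⊗ ℚ` of an abelian variety, is a
`ℚ`-structure of the `F`-vector space it spans (injectivity of the Kummer map on `A ⊗ ℚ_p`). -/
structure IsAbelian {F : Type} [Field F] [Algebra ℚ F] (D : AJTheory.{u, v, w, w'} H F) : Prop where
  add : ∀ (X : 𝒱.Obj) (j : ℕ) (z z' : C.A X), AlgTriv H X j z → AlgTriv H X j z' →
    AlgTriv H X j (z + z')
  kernel : ∀ (T X : 𝒱.Obj) (j : ℕ) (Γ : C.A (T.prod X)), T.dim = 1 → C.Deg j Γ →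
    ∃ e : C.A (T.prod T), C.Deg 1 e ∧ H.cl (C.comp e Γ) = 0 ∧
      ∀ a : C.A T, HomTriv H T 1 a → D.aj X j (C.act Γ a) = 0 → C.act e a = a
  rational : ∀ (m : ℕ) (X : 𝒱.Obj) (j : ℕ) (z : Fin m → C.A X) (c : Fin m → F),
    (∀ s, AlgTriv H X j (z s)) → LinearIndependent ℚ c → ∑ s, c s • D.aj X j (z s) = 0 →
      ∀ s, D.aj X j (z s) = 0

/-- The `F`-linear extension of the Abel-Jacobi map is injective on `S ⊗ F`, `S` a subspace of
`CH^j(X)_hom`: it maps families which are linearly independent over `ℚ` to families which are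
linearly independent over `F`. -/
def InjOn {F : Type} [Field F] [Algebra ℚ F] (D : AJTheory.{u, v, w, w'} H F) (X : 𝒱.Obj)
    (j : ℕ) (S : C.A X → Prop) : Prop :=
  ∀ (m : ℕ) (z : Fin m → C.A X), (∀ s, S (z s)) → LinearIndependent ℚ z →
    LinearIndependent F fun s => D.aj X j (z s)

variable (H)

/-- The motive `(X, e)` is of level one in degree `2 i + 1`: `e` is an idempotent correspondence of
degree zero, and `e H^(2i+1)(X)` is a direct summand of `H^1(T)(-i)` for a curve `T`, by means of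
correspondences `f ∈ CH^(i+1)(T × X)` and `g ∈ CH^(dim X - i)(X × T)`. -/
def LevelOne {X : 𝒱.Obj} (i : ℕ) (e : C.A (X.prod X)) : Prop :=
  C.Deg X.dim e ∧ C.comp e e = e ∧ ∃ (T : 𝒱.Obj) (f : C.A (T.prod X)) (g : C.A (X.prod T)),
    T.dim = 1 ∧ C.Deg (i + 1) f ∧ C.Deg ((X.dim : ℤ) - i) g ∧
      Kills H (C.comp e (C.comp g (C.comp f e)) - e) (2 * i + 1)

variable {H}

/-- The element `c` of `V X j` is a linear combination over `F` of elements `aj z`, `z` in `S`. -/
def Spanned {F : Type} [Field F] [Algebra ℚ F] (D : AJTheory.{u, v, w, w'} H F) (X : 𝒱.Obj)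
    (j : ℕ) (S : C.A X → Prop) (c : D.V X j) : Prop :=
  ∃ (m : ℕ) (z : Fin m → C.A X) (r : Fin m → F), (∀ s, S (z s)) ∧ c = ∑ s, r s • D.aj X j (z s)

/-- The `F`-linear extension of the Abel-Jacobi map is an isomorphism from
`e (CH^(i+1)(X)_alg ⊗ F)` onto the Selmer group `e sel`: it is injective, has values in `e sel`, and
is surjective. -/
def IsoOnAlg {F : Type} [Field F] [Algebra ℚ F] (D : AJTheory.{u, v, w, w'} H F) {X : 𝒱.Obj}
    (i : ℕ) (e : C.A (X.prod X)) : Prop :=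
  InjOn D X (i + 1) (fun z => AlgTriv H X (i + 1) z ∧ C.act e z = z) ∧
    (∀ z, AlgTriv H X (i + 1) z → C.act e z = z →
      D.aj X (i + 1) z ∈ D.sel X (i + 1) ∧
        D.map (i + 1) (i + 1) e (D.aj X (i + 1) z) = D.aj X (i + 1) z) ∧
    ∀ c ∈ D.sel X (i + 1), D.map (i + 1) (i + 1) e c = c →
      Spanned D X (i + 1) (fun z => AlgTriv H X (i + 1) z ∧ C.act e z = z) c

/-- For all `X` and `j` the `F`-linear Abel-Jacobi map is injective on `CH^j(X)_alg ⊗ F`. -/
def InjAll {F : Type} [Field F] [Algebra ℚ F] (D : AJTheory.{u, v, w, w'} H F) : Prop :=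
  ∀ (X : 𝒱.Obj) (j : ℕ), InjOn D X j (AlgTriv H X j)

/-- For all `i` and all `X` of dimension `2 i + 1` the `F`-linear Abel-Jacobi map is injective on
`CH^(i+1)(X)_alg ⊗ F`. -/
def InjMiddle {F : Type} [Field F] [Algebra ℚ F] (D : AJTheory.{u, v, w, w'} H F) : Prop :=
  ∀ (i : ℕ) (X : 𝒱.Obj), X.dim = 2 * i + 1 → InjOn D X (i + 1) (AlgTriv H X (i + 1))

/-- For all motives `(X, e)` of level one the `F`-linear Abel-Jacobi map is an isomorphism from
`e (CH^(i+1)(X)_alg ⊗ F)` onto the Selmer group `e sel`. -/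
def IsoLevelOne {F : Type} [Field F] [Algebra ℚ F] (D : AJTheory.{u, v, w, w'} H F) : Prop :=
  ∀ (i : ℕ) (X : 𝒱.Obj) (e : C.A (X.prod X)), LevelOne H i e → IsoOnAlg D i e

/-- For all curves the `F`-linear Abel-Jacobi map is onto the Selmer group. -/
def OntoForCurves {F : Type} [Field F] [Algebra ℚ F] (D : AJTheory.{u, v, w, w'} H F) : Prop :=
  ∀ T : 𝒱.Obj, T.dim = 1 → ∀ c ∈ D.sel T 1, Spanned D T 1 (HomTriv H T 1) c

end Pool.Agent.Q28.PV
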