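import Pool.Agent.Q28.PV.Basic

/-!
# Abel-Jacobi maps on algebraically trivial cycles: the theorem
-/

open CategoryTheory AlgebraicGeometry

universe u v w w'

namespace Pool.Agent.Q28.PV

open Pool.Agent.H914 Pool.Agent.H914.VarClass Pool.Agent.H914.VarClass.Obj Pool.Agent.W492.BB
  Pool.Agent.W550.Corr Pool.Agent.TH133

variable {k : Type u} [Field k] {𝒱 : VarClass k} {C : TheoryData.{u, v, 0} 𝒱 ℚ} [IsChowProj C]
  {K : Type w} [Field K] {H : WeilTheoryData.{u, v, w} C K} [IsWeilProj H]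
  {F : Type} [Field F] [Algebra ℚ F]

section kernel

variable (D : AJTheory.{u, v, w, w'} H F)

lemma DoublyTriv.sub {X : 𝒱.Obj} {j : ℕ} {z : C.A X} (hz : DoublyTriv H X j z) :
    AlgTriv H X j z ∧ D.aj X j z = 0 := by
  obtain ⟨T, Γ, a, hT, hΓ, ha, rfl⟩ := hz
  refine ⟨⟨T, Γ, a, hT, hΓ.1, ha, rfl⟩, ?_⟩
  have h0 : D.map 1 j Γ = D.map 1 j (0 : C.A (T.prod X)) := by
    refine D.map_congr _ _ _ _ _ _ (curve_deg hT hΓ.1) (zero_mem _) (kills_of_cl ?_ _)
    rw [sub_zero, hΓ.2]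
  rw [D.aj_act _ _ _ _ _ _ (curve_deg hT hΓ.1) ha, h0,
    ← D.aj_act _ _ _ _ _ _ (zero_mem _) ha, C.act_zero, aj_zero]

theorem kernel_iff (hD : IsAbelian D) (X : 𝒱.Obj) (j : ℕ) (z : C.A X) :
    (AlgTriv H X j z ∧ D.aj X j z = 0) ↔ DoublyTriv H X j z := by
  constructor
  · rintro ⟨⟨T, Γ, a, hT, hΓ, ha, rfl⟩, hz0⟩
    obtain ⟨e, he, hcl, hker⟩ := hD.kernel T X j Γ hT hΓ
    have hae := hker a ha hz0
    refine ⟨T, C.comp e Γ, a, hT, ⟨?_, hcl⟩, ha, ?_⟩
    · exact curve_deg' hT (comp_deg (curve_deg (j := 1) hT (by simpa using he)) (curve_deg hT hΓ))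
    · rw [C.act_comp, hae]
  · exact fun hz => hz.sub D

/-- Rational and `F`-linear injectivity on algebraically trivial cycles are equivalent. -/
theorem injOn_iff (hD : IsAbelian D) {X : 𝒱.Obj} {j : ℕ} (S : C.A X → Prop)
    (hS : ∀ z, S z → AlgTriv H X j z) (hadd : ∀ z z', S z → S z' → S (z + z'))
    (hsmul : ∀ (q : ℚ) z, S z → S (q • z)) :
    InjOn D X j S ↔ ∀ z, S z → D.aj X j z = 0 → z = 0 := by
  constructor
  · intro h z hz hz0
    by_contra hne
    have h1 := h 1 ![z] (fun s => by fin_cases s; exact hz)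
      ((LinearIndependent.of_subsingleton (R := ℚ) (v := ![z]) 0 (by simpa using hne)))
    have h2 := h1.ne_zero 0
    exact h2 (by simpa using hz0)
  · intro h m z hz hli
    rcases Nat.eq_zero_or_pos m with rfl | hm0
    · exact linearIndependent_empty_type
    have hzero : S 0 := by
      have := hsmul 0 _ (hz ⟨0, hm0⟩)
      rwa [zero_smul] at this
    let S' : Submodule ℚ (C.A X) :=
      { carrier := {z | S z}
        add_mem' := fun {a b} ha hb => hadd a b ha hb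
        zero_mem' := hzero
        smul_mem' := fun q z hz => hsmul q z hz }
    rw [Fintype.linearIndependent_iff]
    intro g hg
    let W : Submodule ℚ F := Submodule.span ℚ (Set.range g)
    have : Module.Finite ℚ W := Module.Finite.span_of_finite ℚ (Set.finite_range g)
    let b := Module.finBasis ℚ W
    have hgW : ∀ s, g s ∈ W := fun s => Submodule.subset_span ⟨s, rfl⟩
    let q : Fin m → Fin (Module.finrank ℚ W) → ℚ := fun s t => b.repr ⟨g s, hgW s⟩ t
    have hgq : ∀ s, g s = ∑ t, q s t • (b t : F) := by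
      intro s
      have h1 := congrArg (Subtype.val) (b.sum_repr ⟨g s, hgW s⟩)
      rw [AddSubmonoidClass.coe_finsetSum] at h1
      exact h1.symm
    have hbi : LinearIndependent ℚ fun t => (b t : F) := by
      have := b.linearIndependent.map' W.subtype (Submodule.ker_subtype W)
      exact this
    have hh : ∀ s, HomTriv H X j (z s) := fun s => (hS _ (hz s)).homTriv
    have hq : ∀ t, D.aj X j (∑ s, q s t • z s) = ∑ s, algebraMap ℚ F (q s t) • D.aj X j (z s) := by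
      intro t
      rw [aj_sum D Finset.univ fun s _ => (hh s).smul _]
      exact Finset.sum_congr rfl fun s _ => D.aj_smul _ _ _ _ (hh s)
    have hsum : ∑ t, (b t : F) • D.aj X j (∑ s, q s t • z s) = 0 := by
      rw [← hg]
      have h1 : ∀ s, g s • D.aj X j (z s) =
          ∑ t, (b t : F) • algebraMap ℚ F (q s t) • D.aj X j (z s) := by
        intro s
        conv_lhs => rw [hgq s, Finset.sum_smul]
        refine Finset.sum_congr rfl fun t _ => ?_
        rw [Algebra.smul_def, mul_comm, mul_smul]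
      rw [Finset.sum_congr rfl fun s _ => h1 s, Finset.sum_comm]
      refine Finset.sum_congr rfl fun t _ => ?_
      rw [hq t, Finset.smul_sum]
    have hm : ∀ t, S (∑ s, q s t • z s) :=
      fun t => Submodule.sum_mem S' fun s _ => S'.smul_mem _ (hz s)
    have h2 := hD.rational _ X j (fun t => ∑ s, q s t • z s) (fun t => (b t : F))
      (fun t => hS _ (hm t)) hbi hsum
    have h3 : ∀ t, ∑ s, q s t • z s = 0 := fun t => h _ (hm t) (h2 t)
    have h4 : ∀ s t, q s t = 0 := by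
      intro s t
      exact Fintype.linearIndependent_iff.mp hli (fun s => q s t) (h3 t) s
    intro s
    rw [hgq s]
    exact Finset.sum_eq_zero fun t _ => by rw [h4 s t, zero_smul]

theorem kills_iff (hD : IsAbelian D) (X : 𝒱.Obj) (j : ℕ) :
    (∀ z, AlgTriv H X j z → D.aj X j z = 0 → z = 0) ↔ KillsJacobians H X j := by
  constructor
  · intro h T Γ a hT hΓ ha
    have h1 := DoublyTriv.sub D (X := X) (j := j) ⟨T, Γ, a, hT, hΓ, ha, rfl⟩
    exact h _ h1.1 h1.2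
  · intro h z hz hz0
    obtain ⟨T, Γ, a, hT, hΓ, ha, rfl⟩ := (kernel_iff D hD X j z).mp ⟨hz, hz0⟩
    exact h T Γ a hT hΓ ha

theorem injOn_alg_iff (hD : IsAbelian D) (X : 𝒱.Obj) (j : ℕ) :
    InjOn D X j (AlgTriv H X j) ↔ KillsJacobians H X j := by
  rw [injOn_iff D hD (AlgTriv H X j) (fun _ h => h) (hD.add X j) (fun q _ h => h.smul q),
    kills_iff D hD X j]

end kernel

section products

/-- `KillsJacobians` for all varieties is equivalent to the vanishing of products. -/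
lemma ext_zero (h : ∀ (X : 𝒱.Obj) (j : ℕ), KillsJacobians H X j) {X T : 𝒱.Obj} {i : ℕ} {x : C.A X}
    {a : C.A T} (hT : T.dim = 1) (hx : HomTriv H X i x) (ha : HomTriv H T 1 a) :
    C.ext x a = 0 := by
  rw [← ext_eq_act]
  refine h (X.prod T) (i + 1) T _ a hT ⟨?_, ?_⟩ ha
  · have h1 : C.cograph (snd X T) ∈ C.gr (T.prod (X.prod T)) 1 := by
      have := cograph_mem (C := C) (snd X T)
      rw [hT] at this
      exact_mod_cast this
    have h2 : C.mulCorr (C.pull (fst X T) x) ∈ C.gr _ (((X.prod T).dim : ℤ) + i) :=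
      mulCorr_mem (C.pull_mem _ hx.1)
    have h3 := comp_curve h1 h2
    have e : ((i + 1 : ℕ) : ℤ) = 1 + i := by push_cast; ring
    rw [e]
    exact h3
  · apply cl_comp_zero'
    apply cl_mulCorr_zero
    rw [H.cl_pull, hx.2, map_zero]

lemma alg_mul_zero (h : ∀ (X T : 𝒱.Obj) (i : ℕ) (x : C.A X) (a : C.A T), T.dim = 1 →
    HomTriv H X i x → HomTriv H T 1 a → C.ext x a = 0) {X : 𝒱.Obj} {i j : ℕ} {x y : C.A X}
    (hx : HomTriv H X i x) (hy : AlgTriv H X j y) : x * y = 0 := by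
  obtain ⟨T, Γ, a, hT, hΓ, ha, rfl⟩ := hy
  rw [mul_act]
  have h1 : C.ext a x = 0 := by
    rw [← tp_ext x a, h X T i x a hT hx ha]
    exact tp_zero C
  rw [h1, mul_zero, map_zero]

lemma kills_of_mul (h : ∀ (X : 𝒱.Obj) (i j : ℕ) (x y : C.A X), HomTriv H X i x →
    AlgTriv H X j y → x * y = 0) (X : 𝒱.Obj) (j : ℕ) : KillsJacobians H X j := by
  intro T Γ a hT hΓ ha
  rw [C.act_apply]
  have h1 : AlgTriv H (T.prod X) 1 (C.pull (fst T X) a) := by
    refine ⟨T, C.cograph (fst T X), a, hT, ?_, ha, ?_⟩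
    · have := cograph_mem (C := C) (fst T X)
      rw [hT] at this
      exact_mod_cast this
    · rw [C.act_cograph]
  rw [h (T.prod X) j 1 Γ _ hΓ h1, map_zero]

/-- Passage to a product with a curve. -/
lemma kills_of_prod {X T : 𝒱.Obj} {j : ℕ} (s : ℕ) {c : C.A T}
    (hc : C.Deg s c) {c' : C.A T} (hcc : HasDegree C (c * c') 1) {a : C.A T}
    (h : ∀ Γ : C.A (T.prod (X.prod T)), C.Deg (j + s : ℕ) Γ → H.cl Γ = 0 → C.act Γ a = 0)
    {Γ : C.A (T.prod X)} (hΓ : C.Deg j Γ) (hcl : H.cl Γ = 0) : C.act Γ a = 0 := by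
  have h1 : C.comp (C.cograph (fst X T)) (C.mulCorr (C.pull (snd X T) c)) ∈
      C.gr (X.prod (X.prod T)) ((X.dim : ℤ) + s) := by
    have h2 : C.cograph (fst X T) ∈ C.gr (X.prod (X.prod T)) X.dim := cograph_mem _
    have h3 : C.mulCorr (C.pull (snd X T) c) ∈ C.gr _ (((X.prod T).dim : ℤ) + s) :=
      mulCorr_mem (C.pull_mem _ hc)
    exact comp_curve h2 h3
  have h4 := h (C.comp Γ (C.comp (C.cograph (fst X T)) (C.mulCorr (C.pull (snd X T) c)))) (by
    have := comp_curve hΓ h1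
    have e : ((j + s : ℕ) : ℤ) = j + s := by push_cast; ring
    rw [e]; exact this) (cl_comp_zero hcl _)
  rw [C.act_comp, C.act_comp, C.act_cograph, C.act_mulCorr] at h4
  have h5 : C.push (fst X T) (C.pull (snd X T) c' * (C.pull (snd X T) c *
      C.pull (fst X T) (C.act Γ a))) = C.act Γ a := by
    rw [← mul_assoc, ← map_mul, ch_comm C c' c, C.proj_right, (hcc X).2, one_smul, one_mul]
  rw [← h5, h4, mul_zero, map_zero]

lemma norm_up {T : 𝒱.Obj} (hT : T.dim = 1) {a : C.A T}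
    (h : ∀ (i : ℕ) (X : 𝒱.Obj), X.dim = 2 * i + 1 → ∀ Γ : C.A (T.prod X), C.Deg (i + 1 : ℕ) Γ →
      H.cl Γ = 0 → C.act Γ a = 0) (m : ℕ) : ∀ (X : 𝒱.Obj) (j : ℕ), X.dim + 1 = 2 * j + m →
      ∀ Γ : C.A (T.prod X), C.Deg j Γ → H.cl Γ = 0 → C.act Γ a = 0 := by
  obtain ⟨o, ho, ho1⟩ := exists_point (C := C) T
  induction m with
  | zero =>
    intro X j hX Γ hΓ hc
    obtain ⟨i, rfl⟩ : ∃ i, j = i + 1 := ⟨j - 1, by omega⟩
    exact h i X (by omega) Γ hΓ hc
  | succ m ih =>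
    intro X j hX Γ hΓ hc
    refine kills_of_prod 1 (c := o) (c' := 1) ?_ (by rwa [mul_one]) ?_ hΓ hc
    · rw [hT] at ho; exact_mod_cast ho
    · intro Γ' hΓ' hc'
      exact ih (X.prod T) (j + 1) (by rw [dim_prod]; omega) Γ' hΓ' hc'

lemma norm_down {T : 𝒱.Obj} (hT : T.dim = 1) {a : C.A T}
    (h : ∀ (i : ℕ) (X : 𝒱.Obj), X.dim = 2 * i + 1 → ∀ Γ : C.A (T.prod X), C.Deg (i + 1 : ℕ) Γ →
      H.cl Γ = 0 → C.act Γ a = 0) (m : ℕ) : ∀ (X : 𝒱.Obj) (j : ℕ), X.dim + 1 + m = 2 * j →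
      ∀ Γ : C.A (T.prod X), C.Deg j Γ → H.cl Γ = 0 → C.act Γ a = 0 := by
  obtain ⟨o, ho, ho1⟩ := exists_point (C := C) T
  induction m with
  | zero =>
    intro X j hX Γ hΓ hc
    obtain ⟨i, rfl⟩ : ∃ i, j = i + 1 := ⟨j - 1, by omega⟩
    exact h i X (by omega) Γ hΓ hc
  | succ m ih =>
    intro X j hX Γ hΓ hc
    refine kills_of_prod 0 (c := 1) (c' := o) ?_ (by rwa [one_mul]) ?_ hΓ hc
    · exact_mod_cast C.one_mem T
    · intro Γ' hΓ' hc'
      exact ih (X.prod T) j (by rw [dim_prod]; omega) Γ' (by simpa using hΓ') hc'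

lemma kills_of_middle (h : ∀ (i : ℕ) (X : 𝒱.Obj), X.dim = 2 * i + 1 → KillsJacobians H X (i + 1))
    (X : 𝒱.Obj) (j : ℕ) : KillsJacobians H X j := by
  intro T Γ a hT hΓ ha
  have h' : ∀ (i : ℕ) (X : 𝒱.Obj), X.dim = 2 * i + 1 → ∀ Γ : C.A (T.prod X),
      C.Deg (i + 1 : ℕ) Γ → H.cl Γ = 0 → C.act Γ a = 0 :=
    fun i X hX Γ hΓ hc => h i X hX T Γ a hT ⟨hΓ, hc⟩ ha
  rcases le_total (2 * j) (X.dim + 1) with h1 | h1
  · exact norm_up hT h' (X.dim + 1 - 2 * j) X j (by omega) Γ hΓ.1 hΓ.2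
  · exact norm_down hT h' (2 * j - (X.dim + 1)) X j (by omega) Γ hΓ.1 hΓ.2

end products

section iso

variable (D : AJTheory.{u, v, w, w'} H F)

lemma aj_sel_of_alg {X : 𝒱.Obj} {j : ℕ} {z : C.A X} (hz : AlgTriv H X j z) :
    D.aj X j z ∈ D.sel X j := by
  obtain ⟨T, Δ, a, hT, hΔ, ha, rfl⟩ := hz
  rw [D.aj_act _ _ _ _ _ _ (curve_deg hT hΔ) ha]
  exact D.map_sel _ _ _ _ _ (curve_deg hT hΔ) _ (D.aj_curve T a hT ha)

theorem iso_of (hD : IsAbelian D) {X : 𝒱.Obj} {i : ℕ} {e : C.A (X.prod X)}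
    (hK : KillsJacobians H X (i + 1)) (h0 : OntoForCurves D) (he : LevelOne H i e) :
    IsoOnAlg D i e := by
  obtain ⟨hdeg, hidem, T, f, g, hT, hf, hg, hk⟩ := he
  have hde : C.Deg ((X.dim : ℤ) + (i + 1 : ℕ) - (i + 1 : ℕ)) e := by
    have e1 : (X.dim : ℤ) + (i + 1 : ℕ) - (i + 1 : ℕ) = X.dim := by ring
    rw [e1]; exact hdeg
  have hdf : C.Deg ((T.dim : ℤ) + (i + 1 : ℕ) - (1 : ℕ)) f := by
    have e1 : (T.dim : ℤ) + (i + 1 : ℕ) - (1 : ℕ) = i + 1 := by rw [hT]; push_cast; ring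
    rw [e1]; exact hf
  have hdg : C.Deg ((X.dim : ℤ) + (1 : ℕ) - (i + 1 : ℕ)) g := by
    have e1 : (X.dim : ℤ) + (1 : ℕ) - (i + 1 : ℕ) = X.dim - i := by push_cast; ring
    rw [e1]; exact hg
  refine ⟨?_, ?_, ?_⟩
  · refine (injOn_iff D hD _ (fun z h => h.1) ?_ ?_).mpr ?_
    · intro z z' h h'
      exact ⟨hD.add _ _ _ _ h.1 h'.1, by rw [act_map_add, h.2, h'.2]⟩
    · intro q z h
      exact ⟨h.1.smul q, by rw [act_map_smul, h.2]⟩
    · intro z hz hz0
      exact (kills_iff D hD X (i + 1)).mpr hK z hz.1 hz0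
  · intro z hz hez
    refine ⟨aj_sel_of_alg D hz, ?_⟩
    rw [← D.aj_act X X (i + 1) (i + 1) e z hde hz.homTriv, hez]
  · intro c hc hec
    have hfe := comp_deg hdf hde
    have hgfe := comp_deg hdg hfe
    have hegfe := comp_deg hde hgfe
    have h1 : D.map (i + 1) (i + 1) (C.comp e (C.comp g (C.comp f e))) =
        D.map (i + 1) (i + 1) e := by
      refine D.map_congr _ _ _ _ _ _ hegfe hde ?_
      have e2 : (2 * ((i + 1 : ℕ) : ℤ) - 1) = 2 * i + 1 := by push_cast; ring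
      rw [e2]
      exact hk
    have h2 := LinearMap.congr_fun h1 c
    rw [D.map_comp _ _ _ _ _ _ _ _ hde hgfe, D.map_comp _ _ _ _ _ _ _ _ hdg hfe,
      D.map_comp _ _ _ _ _ _ _ _ hdf hde, hec] at h2
    obtain ⟨m, a, r, ha, har⟩ := h0 T hT _ (D.map_sel _ _ _ _ _ hdg _ hc)
    refine ⟨m, fun s => C.act e (C.act f (a s)), r, fun s => ⟨?_, ?_⟩, ?_⟩
    · refine AlgTriv.act hde ⟨T, f, a s, hT, ?_, ha s, rfl⟩
      exact_mod_cast hf
    · rw [← C.act_comp e e, hidem]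
    · rw [← h2, har, map_sum, map_sum]
      refine Finset.sum_congr rfl fun s _ => ?_
      rw [map_smul, map_smul, D.aj_act _ _ _ _ _ _ hde ((ha s).act hdf),
        D.aj_act _ _ _ _ _ _ hdf (ha s)]

theorem surj_of (h : IsoLevelOne D) : OntoForCurves D := by
  intro T hT c hc
  have h1 : LevelOne H (X := T) 0 (dg C T) := by
    refine ⟨dg_mem C T, comp_dg C _, T, dg C T, dg C T, hT, ?_, ?_, ?_⟩
    · have := dg_mem C T
      rw [hT] at this
      exact_mod_cast this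
    · have := dg_mem C T
      simpa using this
    · rw [comp_dg, comp_dg, comp_dg, sub_self]
      exact kills_of_cl (map_zero _) _
  obtain ⟨m, z, r, hz, hc'⟩ := (h 0 T (dg C T) h1).2.2 c hc (D.map_id T 1 c)
  exact ⟨m, z, r, fun s => (hz s).1.homTriv, hc'⟩

end iso

section final

variable {ι : Type} [Nonempty ι] {F : ι → Type} [∀ p, Field (F p)] [∀ p, Algebra ℚ (F p)]

theorem final (D : ∀ p, AJTheory.{u, v, w, w'} H (F p)) (hD : ∀ p, IsAbelian (D p)) :
    (∀ (p : ι) (X : 𝒱.Obj) (j : ℕ) (z : C.A X),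
      (AlgTriv H X j z ∧ (D p).aj X j z = 0) ↔ DoublyTriv H X j z) ∧
    (∀ (p : ι) (X : 𝒱.Obj) (j : ℕ), InjOn (D p) X j (AlgTriv H X j) ↔ KillsJacobians H X j) ∧
    [∃ p : ι, InjMiddle (D p),
      ∀ p : ι, InjAll (D p),
      ∀ (X : 𝒱.Obj) (j : ℕ), KillsJacobians H X j,
      ∀ (X : 𝒱.Obj) (i j : ℕ) (x y : C.A X), HomTriv H X i x → AlgTriv H X j y → x * y = 0,
      ∀ (X T : 𝒱.Obj) (i : ℕ) (x : C.A X) (a : C.A T), T.dim = 1 → HomTriv H X i x →
        HomTriv H T 1 a → C.ext x a = 0].TFAE ∧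
    ((∀ (X : 𝒱.Obj) (j : ℕ), KillsJacobians H X j) → ∀ p : ι,
      (IsoLevelOne (D p) ↔ OntoForCurves (D p))) := by
  refine ⟨fun p X j z => kernel_iff (D p) (hD p) X j z,
    fun p X j => injOn_alg_iff (D p) (hD p) X j, ?_, ?_⟩
  · tfae_have 2 → 1 := fun h => ⟨Classical.arbitrary ι, fun i X _ => h _ X (i + 1)⟩
    tfae_have 1 → 3 := by
      rintro ⟨p, h⟩
      exact kills_of_middle fun i X hX => (injOn_alg_iff (D p) (hD p) X (i + 1)).mp (h i X hX)
    tfae_have 3 → 2 := fun h p X j => (injOn_alg_iff (D p) (hD p) X j).mpr (h X j)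
    tfae_have 3 → 5 := fun h X T i x a hT hx ha => ext_zero h hT hx ha
    tfae_have 5 → 4 := fun h X i j x y hx hy => alg_mul_zero h hx hy
    tfae_have 4 → 3 := fun h X j => kills_of_mul h X j
    tfae_finish
  · intro h p
    exact ⟨fun h1 => surj_of (D p) h1,
      fun h1 i X e he => iso_of (D p) (hD p) (h X (i + 1)) h1 he⟩

end final

end Pool.Agent.Q28.PV
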